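import Mathlib

set_option autoImplicit false

/-! # A tree with `γ / ir ≥ 4/3` -/

namespace Pool.Agent.Results.MP_180bcc_co.FourThirdsTree

/-- `D` is a dominating set -/
def Dominating {V : Type} (G : SimpleGraph V) (D : Finset V) : Prop :=
  ∀ v, ∃ d ∈ D, v = d ∨ G.Adj d v

/-- the domination number -/
noncomputable def gamma {V : Type} (G : SimpleGraph V) : ℕ :=
  sInf {k : ℕ | ∃ D : Finset V, Dominating G D ∧ D.card = k}

/-- `w` is a private neighbour of `v` with respect to `S` -/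
def Private {V : Type} (G : SimpleGraph V) (S : Finset V) (v w : V) : Prop :=
  (w = v ∨ G.Adj v w) ∧ ∀ u ∈ S, u ≠ v → ¬ (w = u ∨ G.Adj u w)

/-- `S` is irredundant: each vertex of `S` has a private neighbour -/
def Irredundant {V : Type} (G : SimpleGraph V) (S : Finset V) : Prop :=
  ∀ v ∈ S, ∃ w, Private G S v w

/-- `S` is maximal irredundant -/
def MaxIrredundant {V : Type} (G : SimpleGraph V) (S : Finset V) : Prop :=
  Irredundant G S ∧ ∀ S' : Finset V, S ⊂ S' → ¬ Irredundant G S'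

/-- the lower irredundance number -/
noncomputable def ir {V : Type} (G : SimpleGraph V) : ℕ :=
  sInf {k : ℕ | ∃ S : Finset V, MaxIrredundant G S ∧ S.card = k}

theorem Irredundant.mono {V : Type} {G : SimpleGraph V} {S S' : Finset V} (h : S ⊆ S')
    (hS : Irredundant G S') : Irredundant G S := by
  intro v hv
  obtain ⟨w, hw1, hw2⟩ := hS v (h hv)
  exact ⟨w, hw1, fun u hu huv => hw2 u (h hu) huv⟩

/-- the edges of the tree -/
def adjT (u v : Fin 18) : Bool :=
  [(0, 1), (1, 2), (2, 3), (3, 4), (4, 5), (5, 6), (6, 7), (7, 8), (6, 9), (9, 10), (4, 11),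
   (11, 12), (3, 13), (13, 14), (1, 15), (15, 16), (0, 17)].contains (u.val, v.val) ||
  [(0, 1), (1, 2), (2, 3), (3, 4), (4, 5), (5, 6), (6, 7), (7, 8), (6, 9), (9, 10), (4, 11),
   (11, 12), (3, 13), (13, 14), (1, 15), (15, 16), (0, 17)].contains (v.val, u.val)

/-- the tree on `18` vertices -/
def T : SimpleGraph (Fin 18) where
  Adj u v := adjT u v = true
  symm := ⟨by decide⟩
  loopless := ⟨by decide⟩

instance : DecidableRel T.Adj := fun u v => inferInstanceAs (Decidable (adjT u v = true))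

theorem T_isTree : T.IsTree := by
  have h (u v : Fin 18) (h : adjT u v = true) : T.Reachable u v :=
    SimpleGraph.Adj.reachable (G := T) h
  have h1 : T.Reachable 0 1 := h 0 1 (by decide)
  have h2 : T.Reachable 0 2 := h1.trans (h 1 2 (by decide))
  have h3 : T.Reachable 0 3 := h2.trans (h 2 3 (by decide))
  have h4 : T.Reachable 0 4 := h3.trans (h 3 4 (by decide))
  have h5 : T.Reachable 0 5 := h4.trans (h 4 5 (by decide))
  have h6 : T.Reachable 0 6 := h5.trans (h 5 6 (by decide))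
  have h7 : T.Reachable 0 7 := h6.trans (h 6 7 (by decide))
  have h8 : T.Reachable 0 8 := h7.trans (h 7 8 (by decide))
  have h9 : T.Reachable 0 9 := h6.trans (h 6 9 (by decide))
  have h10 : T.Reachable 0 10 := h9.trans (h 9 10 (by decide))
  have h11 : T.Reachable 0 11 := h4.trans (h 4 11 (by decide))
  have h12 : T.Reachable 0 12 := h11.trans (h 11 12 (by decide))
  have h13 : T.Reachable 0 13 := h3.trans (h 3 13 (by decide))
  have h14 : T.Reachable 0 14 := h13.trans (h 13 14 (by decide))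
  have h15 : T.Reachable 0 15 := h1.trans (h 1 15 (by decide))
  have h16 : T.Reachable 0 16 := h15.trans (h 15 16 (by decide))
  have h17 : T.Reachable 0 17 := h 0 17 (by decide)
  have key : ∀ v : Fin 18, T.Reachable 0 v := by
    intro v
    fin_cases v
    · exact SimpleGraph.Reachable.refl _
    all_goals assumption
  rw [SimpleGraph.isTree_iff_connected_and_card]
  refine ⟨{ preconnected := fun u v => (key u).symm.trans (key v), nonempty := ⟨0⟩ }, ?_⟩
  rw [Nat.card_eq_fintype_card, ← SimpleGraph.edgeFinset_card]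
  simp only [Nat.card_eq_fintype_card, Fintype.card_fin]
  decide +kernel

/-- the maximal irredundant set -/
def X : Finset (Fin 18) := {0, 1, 3, 4, 6, 9}

/-- eight vertices with pairwise disjoint closed neighbourhoods -/
def Y : Fin 8 → Fin 18 := ![2, 5, 8, 10, 12, 14, 16, 17]

theorem X_irr : ∀ v ∈ X, ∃ w : Fin 18, (w = v ∨ adjT v w = true) ∧
    ∀ u ∈ X, u ≠ v → ¬ (w = u ∨ adjT u w = true) := by
  decide +kernel

theorem X_max : ∀ x : Fin 18, x ∉ X → ∃ v : Fin 18, (v ∈ X ∨ v = x) ∧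
    ∀ w : Fin 18, (w = v ∨ adjT v w = true) →
      ∃ u : Fin 18, (u ∈ X ∨ u = x) ∧ u ≠ v ∧ (w = u ∨ adjT u w = true) := by
  decide +kernel

theorem X_maxIrredundant : MaxIrredundant T X := by
  refine ⟨X_irr, ?_⟩
  intro S' hS' hirr
  obtain ⟨hsub, hne⟩ := Finset.ssubset_iff_subset_ne.1 hS'
  have : ∃ x ∈ S', x ∉ X := by
    by_contra h
    push Not at h
    exact hne (Finset.Subset.antisymm hsub h)
  obtain ⟨x, hxS, hxX⟩ := this
  obtain ⟨v, hv, hw⟩ := X_max x hxX
  have hmem : ∀ u, (u ∈ X ∨ u = x) → u ∈ S' := by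
    rintro u (hu | rfl)
    · exact hsub hu
    · exact hxS
  obtain ⟨w, hw1, hw2⟩ := hirr v (hmem v hv)
  obtain ⟨u, hu, huv, hwu⟩ := hw w hw1
  exact hw2 u (hmem u hu) huv hwu

theorem Y_disj : ∀ i j : Fin 8, ∀ d : Fin 18, (Y i = d ∨ adjT d (Y i) = true) →
    (Y j = d ∨ adjT d (Y j) = true) → i = j := by
  decide +kernel

theorem ir_le : ir T ≤ 6 := Nat.sInf_le ⟨X, X_maxIrredundant, by decide⟩

theorem ir_pos : 0 < ir T := by
  have h : ir T ∈ {k : ℕ | ∃ S : Finset (Fin 18), MaxIrredundant T S ∧ S.card = k} :=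
    Nat.sInf_mem ⟨_, X, X_maxIrredundant, rfl⟩
  obtain ⟨S, hS, hk⟩ := h
  by_contra h0
  have h0' : S.card = 0 := by omega
  rw [Finset.card_eq_zero] at h0'
  subst h0'
  refine hS.2 {0} (by decide) ?_
  intro v hv
  rw [Finset.mem_singleton] at hv
  subst hv
  refine ⟨0, Or.inl rfl, ?_⟩
  intro u hu hu'
  exact absurd (Finset.mem_singleton.1 hu) hu'

theorem gamma_ge : 8 ≤ gamma T := by
  have h : gamma T ∈ {k : ℕ | ∃ D : Finset (Fin 18), Dominating T D ∧ D.card = k} := by
    refine Nat.sInf_mem ⟨_, Finset.univ, ?_, rfl⟩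
    intro v
    exact ⟨v, Finset.mem_univ _, Or.inl rfl⟩
  obtain ⟨D, hD, hk⟩ := h
  choose f hf1 hf2 using fun i : Fin 8 => hD (Y i)
  have hinj : Function.Injective f := by
    intro i j hij
    have hj := hf2 j
    rw [← hij] at hj
    exact Y_disj i j (f i) (hf2 i) hj
  have h1 : (Finset.univ.image f).card = 8 := by
    rw [Finset.card_image_of_injective _ hinj]; simp
  have h2 : Finset.univ.image f ⊆ D := by
    intro d hd
    obtain ⟨i, -, rfl⟩ := Finset.mem_image.1 hd
    exact hf1 i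
  have h3 := Finset.card_le_card h2
  omega

/-- **Theorem.** There is a tree `T` on `18` vertices with `ir(T) ≤ 6` and `γ(T) ≥ 8`, so
`γ(T)/ir(T) ≥ 4/3 > 5/4`; in particular `5/4` is not the maximum of `γ/ir` over all trees. -/
theorem result :
    (∃ T : SimpleGraph (Fin 18), T.IsTree ∧ 0 < ir T ∧ ir T ≤ 6 ∧ 8 ≤ gamma T ∧
      (4 / 3 : ℝ) ≤ (gamma T : ℝ) / (ir T : ℝ)) ∧
    ¬ IsGreatest {x : ℝ | ∃ (n : ℕ) (T : SimpleGraph (Fin n)), T.IsTree ∧
      x = (gamma T : ℝ) / (ir T : ℝ)} (5 / 4) := by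
  have h1 : (0 : ℝ) < (ir T : ℝ) := by exact_mod_cast ir_pos
  have h2 : (ir T : ℝ) ≤ 6 := by exact_mod_cast ir_le
  have h3 : (8 : ℝ) ≤ (gamma T : ℝ) := by exact_mod_cast gamma_ge
  have h4 : (4 / 3 : ℝ) ≤ (gamma T : ℝ) / (ir T : ℝ) := by
    rw [le_div_iff₀ h1]
    linarith
  refine ⟨⟨T, T_isTree, ir_pos, ir_le, gamma_ge, h4⟩, ?_⟩
  intro hg
  have h5 := hg.2 ⟨18, T, T_isTree, rfl⟩
  linarith

end Pool.Agent.Results.MP_180bcc_co.FourThirdsTree
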